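import Pool.Agent.V1180.FSe

set_option autoImplicit false

/-!
# MP_51d96b_an, Q1: the self-similar profile of the fractional Stefan problem is never `C¹` up to the
free boundary from the water side, for all `s ∈ [1/2, 1)`
-/

namespace Pool.Agent.Results.MP_51d96b_an.NotC1Laterally

open Real MeasureTheory Filter Topology Set
open scoped ContDiff
open Pool.Agent.V1180.FS

/-- the fractional Laplacian (normalising constant `1`) of a test function on the line: the principal
value of `∫ (φ x - φ y) / |x - y|^(1+2s) dy`, written with second differences -/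
noncomputable def fracLap (s : ℝ) (φ : ℝ → ℝ) (x : ℝ) : ℝ :=
  ∫ h in Ioi (0:ℝ), (2 * φ x - φ (x + h) - φ (x - h)) / h ^ (1 + 2 * s)

/-- `H` is the profile of the self-similar solution `h(x,t) = H(x t^(-1/(2s)))` of the one-phase
fractional Stefan problem with latent heat `L` and the step datum `L + P₁` for `x ≤ 0`, `0` for `x > 0`,
and `ξ₀` is its free boundary point: `H` is continuous, `0 ≤ H ≤ L + P₁`, `H(-∞) = L + P₁`,
`H(+∞) = 0`, `H > L` to the left of `ξ₀` and `H < L` to the right, and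
`-(1/(2s)) ξ H' + (-Δ)^s (H - L)_+ = 0` in the sense of distributions -/
structure IsProfile (s L P₁ ξ₀ : ℝ) (H : ℝ → ℝ) : Prop where
  cont : Continuous H
  bdd : ∀ ξ, 0 ≤ H ξ ∧ H ξ ≤ L + P₁
  left_lim : Tendsto H atBot (𝓝 (L + P₁))
  right_lim : Tendsto H atTop (𝓝 0)
  pos : 0 < ξ₀
  free : H ξ₀ = L
  water : ∀ ξ, ξ < ξ₀ → L < H ξ
  ice : ∀ ξ, ξ₀ < ξ → H ξ < L
  eqn : ∀ φ : ℝ → ℝ, ContDiff ℝ ∞ φ → HasCompactSupport φ →
    (∫ ξ, max (H ξ - L) 0 * fracLap s φ ξ) + 1 / (2 * s) * (∫ ξ, H ξ * deriv (fun η => η * φ η) ξ) = 0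

/-- `H ∈ C¹(-∞, ξ₀]`: continuously differentiable on `(-∞, ξ₀)` and the derivative has a finite limit
as `ξ → ξ₀-` -/
def C1UpTo (H : ℝ → ℝ) (ξ₀ : ℝ) : Prop :=
  ContDiffOn ℝ 1 H (Iio ξ₀) ∧ ∃ l : ℝ, Tendsto (deriv H) (𝓝[<] ξ₀) (𝓝 l)

variable {s L P₁ ξ₀ : ℝ} {H : ℝ → ℝ}

/-- integration by parts against a test function supported in the water region -/
theorem ibp (hc : Continuous H) (hC : ContDiffOn ℝ 1 H (Iio ξ₀)) {φ : ℝ → ℝ} (hφ : ContDiff ℝ ∞ φ)
    (hφc : HasCompactSupport φ) {ε : ℝ} (hε : 0 < ε) (hz : ∀ ξ, ξ₀ - ε ≤ ξ → φ ξ = 0) :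
    Integrable (fun ξ => deriv H ξ * (ξ * φ ξ)) ∧
    ∫ ξ, H ξ * deriv (fun η => η * φ η) ξ = -∫ ξ, deriv H ξ * (ξ * φ ξ) := by
  set k : ℝ → ℝ := fun η => η * φ η with hk
  have hks : ContDiff ℝ ∞ k := contDiff_id.mul hφ
  have hkc : HasCompactSupport k := hφc.mul_left
  have hkd : Differentiable ℝ k := hks.differentiable (by simp)
  have hkdc : Continuous (deriv k) := hks.continuous_deriv (by simp)
  have hkz : ∀ ξ, ξ₀ - ε ≤ ξ → k ξ = 0 := by
    intro ξ h
    rw [hk]
    simp only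
    rw [hz ξ h, mul_zero]
  have hdc : ContinuousOn (deriv H) (Iio ξ₀) := hC.continuousOn_deriv_of_isOpen isOpen_Iio le_rfl
  have hev : ∀ ξ, ξ₀ ≤ ξ → k =ᶠ[𝓝 ξ] fun _ => 0 := by
    intro ξ h
    filter_upwards [Ioi_mem_nhds (show ξ₀ - ε < ξ by linarith)] with z hz'
    exact hkz z (le_of_lt hz')
  have c1 : Continuous (fun ξ => deriv H ξ * k ξ) := by
    rw [continuous_iff_continuousAt]
    intro ξ
    rcases lt_or_ge ξ ξ₀ with h | h
    · exact (hdc.continuousAt (Iio_mem_nhds h)).mul hks.continuous.continuousAt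
    · have : (fun _ : ℝ => (0:ℝ)) =ᶠ[𝓝 ξ] fun ξ => deriv H ξ * k ξ := by
        filter_upwards [hev ξ h] with z hz'
        rw [hz', mul_zero]
      exact continuousAt_const.congr this
  have i1 : Integrable (fun ξ => deriv H ξ * k ξ) := c1.integrable_of_hasCompactSupport hkc.mul_left
  have i2 : Integrable (fun ξ => H ξ * deriv k ξ) :=
    (hc.mul hkdc).integrable_of_hasCompactSupport hkc.deriv.mul_left
  have i3 : Integrable (fun ξ => H ξ * k ξ) := (hc.mul hks.continuous).integrable_of_hasCompactSupport hkc.mul_left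
  refine ⟨i1, ?_⟩
  have hd : ∀ ξ, HasDerivAt (fun ξ => H ξ * k ξ) (deriv H ξ * k ξ + H ξ * deriv k ξ) ξ := by
    intro ξ
    rcases lt_or_ge ξ ξ₀ with h | h
    · have h1 : DifferentiableAt ℝ H ξ := (hC.contDiffAt (Iio_mem_nhds h)).differentiableAt (by norm_num)
      exact h1.hasDerivAt.mul (hkd ξ).hasDerivAt
    · have e1 : k ξ = 0 := (hev ξ h).eq_of_nhds
      have e2 : deriv k ξ = 0 := by rw [(hev ξ h).deriv_eq]; simp
      rw [e1, e2, mul_zero, mul_zero, add_zero]
      have : (fun ξ => H ξ * k ξ) =ᶠ[𝓝 ξ] fun _ => 0 := by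
        filter_upwards [hev ξ h] with z hz'
        rw [hz', mul_zero]
      exact (hasDerivAt_const ξ (0:ℝ)).congr_of_eventuallyEq this
  have h0 := integral_eq_zero_of_hasDerivAt_of_integrable hd (i1.add i2) i3
  have h1 : (∫ ξ, deriv H ξ * k ξ) + ∫ ξ, H ξ * deriv k ξ = 0 := by
    rw [← integral_add i1 i2]
    exact h0
  linarith

/-- the quantitative statement: if `|H'| ≤ K` on `(ξ₀ - R, ξ₀)` then
`∫_R^∞ u(x) x^(-1-2s) dx ≤ ξ₀ K / (2s)`, where `u(x) = (H(ξ₀ - x) - L)_+` -/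
theorem quant (hs : 1 / 2 ≤ s) (hs1 : s < 1) (hp : IsProfile s L P₁ ξ₀ H)
    (hC : ContDiffOn ℝ 1 H (Iio ξ₀)) {R K : ℝ} (hR : 0 < R) (hRξ : R ≤ ξ₀)
    (hK : ∀ ξ ∈ Ioo (ξ₀ - R) ξ₀, |deriv H ξ| ≤ K) :
    Tl s (fun x => max (H (ξ₀ - x) - L) 0) R ≤ ξ₀ / (2 * s) * K := by
  have hs0 : 0 < s := by linarith
  have hK0 : 0 ≤ K := (abs_nonneg _).trans (hK (ξ₀ - R / 2) ⟨by linarith, by linarith⟩)
  have ha0 : 0 ≤ 9 / 5 * (1 - s) := by linarith
  have huc : Continuous (fun x => max (H (ξ₀ - x) - L) 0) := by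
    have := hp.cont
    fun_prop
  refine core (B := P₁) hs hs1 huc ?_ (fun x => le_max_right _ _) ?_ hR (K := K) ?_ hK0 ?_
  · intro x
    rw [abs_of_nonneg (le_max_right _ _)]
    have h1 := (hp.bdd (ξ₀ - x)).2
    have h2 := (hp.bdd (ξ₀ - 1)).2
    have h3 := hp.water (ξ₀ - 1) (by linarith)
    exact max_le (by linarith) (by linarith)
  · intro x hx
    rcases hx.eq_or_lt with h | h
    · rw [h, sub_zero, hp.free]
      simp
    · have := hp.ice (ξ₀ - x) (by linarith)
      exact max_eq_right (by linarith)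
  · intro x hx
    obtain ⟨c, hc, hc2⟩ := exists_deriv_eq_slope H (show ξ₀ - x < ξ₀ by linarith [hx.1]) hp.cont.continuousOn
      ((hC.differentiableOn (by norm_num)).mono (fun z hz => hz.2))
    have h1 := abs_le.1 (hK c ⟨by linarith [hc.1, hx.2], hc.2⟩)
    rw [hc2, show ξ₀ - (ξ₀ - x) = x by ring, hp.free] at h1
    have h2 := h1.1
    rw [le_div_iff₀ hx.1] at h2
    exact max_le (by linarith) (mul_nonneg hK0 hx.1.le)
  · intro ε hε hε8
    set a := 9 / 5 * (1 - s) with ha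
    set φ : ℝ → ℝ := fun ξ => psi a R ε (ξ₀ - ξ) with hφ
    have hφs : ContDiff ℝ ∞ φ := (psi_contDiff a R ε).comp (contDiff_const.sub contDiff_id)
    have hφc : HasCompactSupport φ := by
      have := (psi_compact ha0 hε hR).comp_homeomorph (Homeomorph.subLeft ξ₀)
      exact this
    have hφ0 : ∀ ξ, 0 ≤ φ ξ := fun ξ => psi_nonneg a R ε _
    have hφz : ∀ ξ, ξ₀ - ε ≤ ξ → φ ξ = 0 := fun ξ h => psi_zero ha0 hε hR (Or.inl (by linarith))
    have hφi : Integrable φ := hφs.continuous.integrable_of_hasCompactSupport hφc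
    obtain ⟨i1, h1⟩ := ibp hp.cont hC hφs hφc hε hφz
    have h2 := hp.eqn φ hφs hφc
    rw [h1] at h2
    have h3 : -(K * ξ₀) * ∫ ξ, φ ξ ≤ ∫ ξ, deriv H ξ * (ξ * φ ξ) := by
      rw [← integral_const_mul]
      refine integral_mono (hφi.const_mul _) i1 fun ξ => ?_
      simp only
      by_cases hz : φ ξ = 0
      · rw [hz]; simp
      · have h5 : ξ ∈ Ioo (ξ₀ - R) ξ₀ := by
          constructor
          · by_contra hcon
            push Not at hcon
            exact hz (psi_zero ha0 hε hR (Or.inr (by linarith)))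
          · by_contra hcon
            push Not at hcon
            exact hz (hφz ξ (by linarith))
        have h6 := abs_le.1 (hK ξ h5)
        have h7 : 0 ≤ ξ := by linarith [h5.1]
        have h8 : -(K * ξ₀) ≤ deriv H ξ * ξ := by
          have h9 : -K * ξ ≤ deriv H ξ * ξ := mul_le_mul_of_nonneg_right h6.1 h7
          have h10 : K * ξ ≤ K * ξ₀ := mul_le_mul_of_nonneg_left h5.2.le hK0
          linarith
        calc -(K * ξ₀) * φ ξ ≤ deriv H ξ * ξ * φ ξ := mul_le_mul_of_nonneg_right h8 (hφ0 ξ)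
          _ = _ := by ring
    have e1 : ∫ ξ, φ ξ = ∫ x, psi a R ε x := integral_sub_left_eq_self (fun x => psi a R ε x) volume ξ₀
    have e2 : ∫ ξ, max (H ξ - L) 0 * fracLap s φ ξ = ∫ x, max (H (ξ₀ - x) - L) 0 * fl s (psi a R ε) x := by
      rw [← integral_sub_left_eq_self (fun x => max (H (ξ₀ - x) - L) 0 * fl s (psi a R ε) x) volume ξ₀]
      apply integral_congr_ae
      refine Eventually.of_forall fun ξ => ?_
      simp only [sub_sub_cancel]
      congr 1
      unfold fracLap fl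
      apply setIntegral_congr_fun measurableSet_Ioi
      intro h _
      simp only [hφ]
      rw [show ξ₀ - (ξ + h) = ξ₀ - ξ - h by ring, show ξ₀ - (ξ - h) = ξ₀ - ξ + h by ring]
      ring
    rw [← e2, ← e1]
    have h4 : ∫ ξ, max (H ξ - L) 0 * fracLap s φ ξ = 1 / (2 * s) * ∫ ξ, deriv H ξ * (ξ * φ ξ) := by linarith
    rw [h4]
    have h5 := mul_le_mul_of_nonneg_left h3 (show 0 ≤ 1 / (2 * s) by positivity)
    calc -(ξ₀ / (2 * s) * K) * ∫ ξ, φ ξ = 1 / (2 * s) * (-(K * ξ₀) * ∫ ξ, φ ξ) := by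
          field_simp
      _ ≤ _ := h5

/-- **MP_51d96b_an, Q1.**  For all `s ∈ [1/2, 1)` and all `L, P₁ > 0` the self-similar profile is not
`C¹` up to the free boundary from the water side. -/
theorem result (s L P₁ ξ₀ : ℝ) (hs : 1 / 2 ≤ s) (hs1 : s < 1) (_hL : 0 < L) (hP : 0 < P₁) (H : ℝ → ℝ)
    (hp : IsProfile s L P₁ ξ₀ H) : ¬ C1UpTo H ξ₀ := by
  rintro ⟨hC, l, hl⟩
  have hs0 : 0 < s := by linarith
  have hξ := hp.pos
  set u : ℝ → ℝ := fun x => max (H (ξ₀ - x) - L) 0 with hu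
  have huc : Continuous u := by
    have := hp.cont
    rw [hu]
    fun_prop
  have huB : ∀ x, |u x| ≤ P₁ := by
    intro x
    rw [hu]
    simp only
    rw [abs_of_nonneg (le_max_right _ _)]
    have h1 := (hp.bdd (ξ₀ - x)).2
    exact max_le (by linarith) hP.le
  have hu0 : ∀ x, 0 ≤ u x := fun x => le_max_right _ _
  have hupos : ∀ x, 0 < x → 0 < u x := by
    intro x hx
    have := hp.water (ξ₀ - x) (by linarith)
    exact lt_max_of_lt_left (by linarith)
  set c := ξ₀ / (2 * s) with hc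
  have hc0 : 0 < c := by positivity
  -- the limit in terms of intervals
  have hnear : ∀ κ : ℝ, 0 < κ → ∃ R₀ : ℝ, 0 < R₀ ∧ R₀ ≤ ξ₀ ∧ R₀ ≤ 1 ∧ ∀ ξ ∈ Ioo (ξ₀ - R₀) ξ₀, |deriv H ξ - l| < κ := by
    intro κ hκ
    have h1 : ∀ᶠ ξ in 𝓝[<] ξ₀, |deriv H ξ - l| < κ := by
      have := hl.eventually (Metric.ball_mem_nhds l hκ)
      filter_upwards [this] with ξ h
      rwa [Real.dist_eq] at h
    obtain ⟨b, hb, hb'⟩ := (mem_nhdsLT_iff_exists_Ioo_subset).1 h1
    simp only [mem_Iio] at hb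
    refine ⟨min (ξ₀ - b) (min ξ₀ 1), lt_min (by linarith) (lt_min hξ one_pos), (min_le_right _ _).trans (min_le_left _ _),
      (min_le_right _ _).trans (min_le_right _ _), fun ξ h => hb' ⟨?_, h.2⟩⟩
    have := min_le_left (ξ₀ - b) (min ξ₀ 1)
    linarith [h.1]
  have hTi : ∀ R : ℝ, 0 < R → IntegrableOn (fun x => u x * x ^ (-(1 + 2 * s))) (Ioi R) := fun R hR => Tl_int hs0 huc huB hR
  have hT1 : 0 < Tl s u 1 := by
    unfold Tl
    rw [setIntegral_pos_iff_support_of_nonneg_ae _ (hTi 1 one_pos)]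
    · refine lt_of_lt_of_le (b := volume (Ioi (1:ℝ))) (by simp) (measure_mono ?_)
      intro x hx
      have hx0 : 0 < x := lt_trans one_pos hx
      exact ⟨(mul_pos (hupos x hx0) (rpow_pos_of_pos hx0 _)).ne', hx⟩
    · refine (ae_restrict_iff' measurableSet_Ioi).2 (Eventually.of_forall fun x hx => ?_)
      exact mul_nonneg (hu0 x) (rpow_nonneg (lt_trans one_pos hx).le _)
  by_cases hl0 : l = 0
  · -- zero slope
    obtain ⟨R, hR, hRξ, hR1, hRd⟩ := hnear (Tl s u 1 / (2 * c)) (by positivity)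
    have h1 := quant hs hs1 hp hC hR hRξ (K := Tl s u 1 / (2 * c)) (fun ξ h => by
      have := hRd ξ h
      rw [hl0, sub_zero] at this
      exact this.le)
    have h2 : Tl s u 1 ≤ Tl s u R := by
      unfold Tl
      refine setIntegral_mono_set (hTi R hR) ?_ (Eventually.of_forall (Ioi_subset_Ioi hR1))
      refine (ae_restrict_iff' measurableSet_Ioi).2 (Eventually.of_forall fun x hx => ?_)
      exact mul_nonneg (hu0 x) (rpow_nonneg (lt_trans hR hx).le _)
    have h3 : c * (Tl s u 1 / (2 * c)) = Tl s u 1 / 2 := by field_simp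
    have h4 : Tl s u R ≤ c * (Tl s u 1 / (2 * c)) := h1
    linarith
  · -- nonzero slope
    have hla : 0 < |l| := abs_pos.2 hl0
    obtain ⟨R₁, hR₁, hR₁ξ, hR₁1, hR₁d⟩ := hnear (|l| / 2) (by positivity)
    have hK : ∀ ξ ∈ Ioo (ξ₀ - R₁) ξ₀, |deriv H ξ| ≤ 3 / 2 * |l| := by
      intro ξ h
      have h1 := hR₁d ξ h
      have h2 : |deriv H ξ| ≤ |deriv H ξ - l| + |l| := by
        have := abs_add_le (deriv H ξ - l) l
        rwa [sub_add_cancel] at this
      linarith
    have hlow : ∀ x ∈ Ioo 0 R₁, |l| / 2 * x ≤ u x := by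
      intro x hx
      obtain ⟨d, hd, hd2⟩ := exists_deriv_eq_slope H (show ξ₀ - x < ξ₀ by linarith [hx.1]) hp.cont.continuousOn
        ((hC.differentiableOn (by norm_num)).mono (fun z hz => hz.2))
      have h1 := hR₁d d ⟨by linarith [hd.1, hx.2], hd.2⟩
      have h2 : |l| / 2 ≤ |deriv H d| := by
        have := abs_add_le (l - deriv H d) (deriv H d)
        rw [sub_add_cancel, abs_sub_comm] at this
        linarith
      rw [hd2, show ξ₀ - (ξ₀ - x) = x by ring, hp.free, abs_div, abs_of_pos hx.1, le_div_iff₀ hx.1] at h2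
      have h3 := hp.water (ξ₀ - x) (by linarith [hx.1])
      have e0 : |L - H (ξ₀ - x)| = H (ξ₀ - x) - L := by
        rw [abs_of_neg (by linarith)]
        ring
      rw [e0] at h2
      exact le_max_of_le_left (by linarith)
    -- choose R = R₁ exp(-N)
    set N : ℝ := 3 * c + 1 with hN
    have hN0 : 0 < N := by positivity
    set R := R₁ * rexp (-N) with hRdef
    have hR : 0 < R := by positivity
    have hRR : R < R₁ := by
      have : rexp (-N) < 1 := by rw [exp_lt_one_iff]; linarith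
      rw [hRdef]
      nlinarith
    have h1 := quant hs hs1 hp hC hR (hRR.le.trans hR₁ξ) (K := 3 / 2 * |l|)
      (fun ξ h => hK ξ ⟨by linarith [h.1], h.2⟩)
    have h2 : |l| / 2 * N ≤ Tl s u R := by
      have e : ∫ x in Ioc R R₁, |l| / 2 * x⁻¹ = |l| / 2 * N := by
        rw [integral_const_mul, ← intervalIntegral.integral_of_le hRR.le, integral_inv_of_pos hR hR₁, hRdef]
        congr 1
        rw [div_mul_cancel_left₀ hR₁.ne', ← Real.exp_neg, neg_neg, Real.log_exp]
      rw [← e]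
      have i1 : IntegrableOn (fun x : ℝ => |l| / 2 * x⁻¹) (Ioc R R₁) := by
        rw [← intervalIntegrable_iff_integrableOn_Ioc_of_le hRR.le]
        apply ContinuousOn.intervalIntegrable
        apply continuousOn_const.mul
        apply ContinuousOn.inv₀ continuousOn_id
        intro x hx
        rw [uIcc_of_le hRR.le] at hx
        exact (lt_of_lt_of_le hR hx.1).ne'
      have i2 := (hTi R hR).mono_set (show Ioc R R₁ ⊆ Ioi R from fun x hx => hx.1)
      calc ∫ x in Ioc R R₁, |l| / 2 * x⁻¹ ≤ ∫ x in Ioc R R₁, u x * x ^ (-(1 + 2 * s)) := by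
            rw [integral_Ioc_eq_integral_Ioo, integral_Ioc_eq_integral_Ioo]
            rw [integrableOn_Ioc_iff_integrableOn_Ioo] at i1 i2
            refine setIntegral_mono_on i1 i2 measurableSet_Ioo (fun x hx => ?_)
            have hx0 : 0 < x := hR.trans hx.1
            have h3 := hlow x ⟨hx0, hx.2⟩
            have h4 : x⁻¹ ≤ x * x ^ (-(1 + 2 * s)) := by
              have e1 : x * x ^ (-(1 + 2 * s)) = x ^ (-(2 * s)) := by
                rw [mul_comm, ← rpow_add_one hx0.ne']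
                congr 1
                ring
              rw [e1, ← rpow_neg_one]
              exact rpow_le_rpow_of_exponent_ge hx0 (hx.2.le.trans hR₁1) (by linarith)
            calc |l| / 2 * x⁻¹ ≤ |l| / 2 * (x * x ^ (-(1 + 2 * s))) := mul_le_mul_of_nonneg_left h4 (by positivity)
              _ = (|l| / 2 * x) * x ^ (-(1 + 2 * s)) := by ring
              _ ≤ _ := mul_le_mul_of_nonneg_right h3 (rpow_nonneg hx0.le _)
        _ ≤ Tl s u R := by
            unfold Tl
            refine setIntegral_mono_set (hTi R hR) ?_ (Eventually.of_forall Ioc_subset_Ioi_self)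
            refine (ae_restrict_iff' measurableSet_Ioi).2 (Eventually.of_forall fun x hx => ?_)
            exact mul_nonneg (hu0 x) (rpow_nonneg (lt_trans hR hx).le _)
    have h3 : Tl s u R ≤ c * (3 / 2 * |l|) := h1
    have h4 : |l| / 2 * N = c * (3 / 2 * |l|) + |l| / 2 := by rw [hN]; ring
    linarith

end Pool.Agent.Results.MP_51d96b_an.NotC1Laterally
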